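import Pool.Agent.Helper40.MR.Defs

/-!
Module H2: averaging over short blocks.
-/

open Finset MeasureTheory
open scoped BigOperators Nat

namespace Pool.Agent.Helper40.MR

section h2

variable {F : ℝ → ℝ}

theorem h2_intble (hF : Measurable F) (hF1 : ∀ u, 0 ≤ u → 0 ≤ F u ∧ F u ≤ u) {x a b : ℝ}
    (hx : 0 ≤ x) (ha : 1 ≤ a) (hb : 1 ≤ b) :
    IntervalIntegrable (fun t => F (x / t)) volume a b := by
  have hm : Measurable (fun t : ℝ => F (x / t)) := hF.comp (measurable_const.div measurable_id)
  rw [intervalIntegrable_iff]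
  refine Measure.integrableOn_of_bounded (M := x) (by
    rw [Set.uIoc, Real.volume_Ioc]; exact ENNReal.ofReal_ne_top) hm.aestronglyMeasurable ?_
  rw [ae_restrict_iff' measurableSet_uIoc]
  refine Filter.Eventually.of_forall fun t ht => ?_
  have ht1 : 1 ≤ t := by
    have h1 := ht.1
    have h2 : 1 ≤ min a b := le_min ha hb
    linarith
  have ht0 : 0 < t := by linarith
  have h1 := hF1 (x / t) (by positivity)
  rw [Real.norm_eq_abs, abs_of_nonneg h1.1]
  refine h1.2.trans ?_
  rw [div_le_iff₀ ht0]
  nlinarith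

theorem h2_block (hF : Measurable F) (hF1 : ∀ u, 0 ≤ u → 0 ≤ F u ∧ F u ≤ u)
    (hF2 : ∀ u v, 0 ≤ u → 0 ≤ v → |F u - F v| ≤ |u - v| + 1) {C h x y : ℝ} (hC : 0 < C)
    (hh : 1 ≤ h) (hx : 0 ≤ x) (hy : 1 ≤ y)
    (hBT : ∑ d ∈ IocN y (y + y / h), ArithmeticFunction.vonMangoldt d ≤ C * (y / h)) :
    ∑ d ∈ IocN y (y + y / h), ArithmeticFunction.vonMangoldt d * F (x / d) ≤
      C * (∫ t in y..(y + y / h), F (x / t)) + C * x / h ^ 2 + C * (y / h) := by
  have hy0 : 0 < y := by linarith
  have hh0 : 0 < h := by linarith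
  have hyh : 0 < y / h := by positivity
  set I : ℝ := ∫ t in y..(y + y / h), F (x / t) with hI
  have hint := h2_intble hF hF1 (x := x) (a := y) (b := y + y / h) hx hy (by linarith)
  have hI0 : 0 ≤ I := by
    rw [hI]
    refine intervalIntegral.integral_nonneg (by linarith) fun t ht => ?_
    have ht0 : 0 < t := by linarith [ht.1]
    exact (hF1 (x / t) (by positivity)).1
  have hR : ∀ d ∈ IocN y (y + y / h), F (x / d) ≤ I / (y / h) + x / (y * h) + 1 := by
    intro d hd
    unfold IocN at hd
    rw [mem_Ioc] at hd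
    have hd1 : y < d := Nat.lt_of_floor_lt hd.1
    have hd2 : (d : ℝ) ≤ y + y / h := (Nat.le_floor_iff (by positivity)).1 hd.2
    have hd0 : (0 : ℝ) < d := by linarith
    have hpt : ∀ t ∈ Set.Icc y (y + y / h), F (x / d) - (x / (y * h) + 1) ≤ F (x / t) := by
      intro t ht
      have ht0 : 0 < t := by linarith [ht.1]
      have h1 := hF2 (x / d) (x / t) (by positivity) (by positivity)
      have h2 : |x / d - x / t| ≤ x / (y * h) := by
        have h3 : x / d - x / t = x * ((t - d) / (d * t)) := by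
          field_simp
        rw [h3, abs_mul, abs_of_nonneg hx, abs_div, abs_of_pos (by positivity : 0 < (d : ℝ) * t)]
        rw [div_eq_mul_one_div x (y * h)]
        refine mul_le_mul_of_nonneg_left ?_ hx
        have h4 : |t - d| ≤ y / h := by
          rw [abs_le]
          constructor <;> linarith [ht.1, ht.2]
        calc |t - d| / (d * t) ≤ (y / h) / (y * y) := by
              refine div_le_div₀ (by positivity) h4 (by positivity) ?_
              exact mul_le_mul hd1.le ht.1 hy0.le hd0.le
          _ = 1 / (y * h) := by field_simp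
      have h5 := (abs_le.1 h1).2
      linarith
    have h6 : ∫ t in y..(y + y / h), (F (x / d) - (x / (y * h) + 1)) ≤ I := by
      rw [hI]
      exact intervalIntegral.integral_mono_on (by linarith) (by simp) hint hpt
    rw [intervalIntegral.integral_const, smul_eq_mul] at h6
    have h7 : y + y / h - y = y / h := by ring
    rw [h7] at h6
    have h8 : F (x / d) - (x / (y * h) + 1) ≤ I / (y / h) := by
      rw [le_div_iff₀ hyh]
      linarith
    linarith
  have hR0 : 0 ≤ I / (y / h) + x / (y * h) + 1 := by positivity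
  calc ∑ d ∈ IocN y (y + y / h), ArithmeticFunction.vonMangoldt d * F (x / d)
      ≤ ∑ d ∈ IocN y (y + y / h), ArithmeticFunction.vonMangoldt d *
        (I / (y / h) + x / (y * h) + 1) := sum_le_sum fun d hd =>
          mul_le_mul_of_nonneg_left (hR d hd) ArithmeticFunction.vonMangoldt_nonneg
    _ = (∑ d ∈ IocN y (y + y / h), ArithmeticFunction.vonMangoldt d) *
        (I / (y / h) + x / (y * h) + 1) := by rw [sum_mul]
    _ ≤ (C * (y / h)) * (I / (y / h) + x / (y * h) + 1) :=
        mul_le_mul_of_nonneg_right hBT hR0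
    _ = C * I + C * x / h ^ 2 + C * (y / h) := by
        field_simp

theorem h2_subst (hF : Measurable F) (hF1 : ∀ u, 0 ≤ u → 0 ≤ F u ∧ F u ≤ u) {x Y : ℝ}
    (hY : 1 ≤ Y) (hYx : Y ≤ x) :
    ∫ t in Y..x, F (x / t) ≤ x * ∫ u in (1 : ℝ)..x, F u / u ^ 2 := by
  have hY0 : 0 < Y := by linarith
  have hx0 : 0 < x := by linarith
  have hx1 : 1 ≤ x := by linarith
  have himg : (fun t : ℝ => x / t) '' Set.Icc Y x = Set.Icc 1 (x / Y) := by
    ext u
    constructor
    · rintro ⟨t, ht, rfl⟩
      have ht0 : 0 < t := by linarith [ht.1]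
      constructor
      · rw [le_div_iff₀ ht0, one_mul]
        exact ht.2
      · exact div_le_div_of_nonneg_left hx0.le hY0 ht.1
    · intro hu
      have hu0 : 0 < u := by linarith [hu.1]
      refine ⟨x / u, ⟨?_, ?_⟩, by field_simp⟩
      · rw [le_div_iff₀ hu0]
        have := hu.2
        rw [le_div_iff₀ hY0] at this
        linarith
      · rw [div_le_iff₀ hu0]
        nlinarith [hu.1]
  have hcv := integral_image_eq_integral_abs_deriv_smul (s := Set.Icc Y x)
    (f := fun t : ℝ => x / t) (f' := fun t => -x / t ^ 2) measurableSet_Icc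
    (by
      intro t ht
      have ht0 : t ≠ 0 := by
        have := ht.1
        intro h
        linarith
      have h1 := (hasDerivAt_inv ht0).const_mul x
      have h2 : x * -(t ^ 2)⁻¹ = -x / t ^ 2 := by
        rw [div_eq_mul_inv]; ring
      rw [h2] at h1
      have h3 : (fun t : ℝ => x / t) = fun t => x * t⁻¹ := by
        funext s
        rw [div_eq_mul_inv]
      rw [h3]
      exact h1.hasDerivWithinAt)
    (by
      intro s hs t ht hst
      have hs0 : 0 < s := by linarith [hs.1]
      have ht0 : 0 < t := by linarith [ht.1]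
      simp only at hst
      rw [div_eq_div_iff hs0.ne' ht0.ne'] at hst
      have := mul_left_cancel₀ hx0.ne' hst
      exact this.symm)
    (fun u => F u / u ^ 2)
  rw [himg] at hcv
  have hrhs : ∫ t in Set.Icc Y x, |(-x / t ^ 2)| • (F (x / t) / (x / t) ^ 2) =
      (1 / x) * ∫ t in Set.Icc Y x, F (x / t) := by
    rw [← integral_const_mul]
    refine setIntegral_congr_fun measurableSet_Icc fun t ht => ?_
    have ht0 : 0 < t := by linarith [ht.1]
    simp only [smul_eq_mul]
    have h1 : |(-x / t ^ 2)| = x / t ^ 2 := by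
      rw [abs_div, abs_neg, abs_of_pos hx0, abs_of_pos (by positivity)]
    rw [h1]
    field_simp
  rw [hrhs] at hcv
  have hint : IntegrableOn (fun u => F u / u ^ 2) (Set.Icc 1 x) := by
    refine Measure.integrableOn_of_bounded (M := 1) (by
      rw [Real.volume_Icc]; exact ENNReal.ofReal_ne_top)
      (hF.div (measurable_id.pow_const 2)).aestronglyMeasurable ?_
    rw [ae_restrict_iff' measurableSet_Icc]
    refine Filter.Eventually.of_forall fun u hu => ?_
    have hu1 : 1 ≤ u := hu.1
    have hu0 : 0 < u := by linarith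
    have h1 := hF1 u hu0.le
    rw [Real.norm_eq_abs, abs_of_nonneg (div_nonneg h1.1 (by positivity)),
      div_le_one (by positivity)]
    nlinarith [h1.2]
  have hmono : ∫ u in Set.Icc 1 (x / Y), F u / u ^ 2 ≤ ∫ u in Set.Icc 1 x, F u / u ^ 2 := by
    refine setIntegral_mono_set hint ?_ ?_
    · rw [Filter.EventuallyLE, ae_restrict_iff' measurableSet_Icc]
      refine Filter.Eventually.of_forall fun u hu => ?_
      have hu0 : 0 < u := by linarith [hu.1]
      exact div_nonneg (hF1 u hu0.le).1 (by positivity)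
    · refine Filter.Eventually.of_forall ?_
      intro u hu
      refine ⟨hu.1, hu.2.trans ?_⟩
      exact div_le_self hx0.le hY
  rw [intervalIntegral.integral_of_le hYx, intervalIntegral.integral_of_le hx1,
    ← integral_Icc_eq_integral_Ioc, ← integral_Icc_eq_integral_Ioc]
  have h1 : ∫ t in Set.Icc Y x, F (x / t) = x * ∫ u in Set.Icc 1 (x / Y), F u / u ^ 2 := by
    rw [hcv]
    field_simp
  rw [h1]
  exact mul_le_mul_of_nonneg_left hmono hx0.le

end h2

theorem st_H2 (hBT : ST_BT) : ST_H2 := by
  obtain ⟨C, hC, hBT⟩ := hBT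
  refine ⟨6 * C + 1, by positivity, ?_⟩
  intro h hh
  obtain ⟨y0, hy0⟩ := hBT h hh
  have hh0 : 0 < h := by linarith
  set Y : ℝ := max y0 1 with hY
  have hY1 : 1 ≤ Y := le_max_right _ _
  have hYy : y0 ≤ Y := le_max_left _ _
  have hY0 : 0 < Y := by linarith
  set K : ℝ := ∑ d ∈ Icc 1 ⌊Y⌋₊, ArithmeticFunction.vonMangoldt d / d with hK
  have hK0 : 0 ≤ K := by
    rw [hK]
    exact sum_nonneg fun d _ => div_nonneg ArithmeticFunction.vonMangoldt_nonneg (by positivity)
  refine ⟨max (Real.exp (h * (K + 1))) Y, ?_⟩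
  intro x hx F hF hF1 hF2
  have hxY : Y ≤ x := (le_max_right _ _).trans hx
  have hxe : Real.exp (h * (K + 1)) ≤ x := (le_max_left _ _).trans hx
  have hx0 : 0 < x := by linarith
  have hlog : h * (K + 1) ≤ Real.log x := by
    rw [Real.le_log_iff_exp_le hx0]
    exact hxe
  have hlog1 : 1 ≤ Real.log x := by nlinarith
  set g : ℕ → ℝ := fun d => ArithmeticFunction.vonMangoldt d * F (x / d) with hg
  have hg0 : ∀ d, 0 ≤ g d := fun d =>
    mul_nonneg ArithmeticFunction.vonMangoldt_nonneg (hF1 _ (by positivity)).1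
  set y : ℕ → ℝ := fun n => Y * (1 + 1 / h) ^ n with hy
  have hyS : ∀ n, y (n + 1) = y n + y n / h := by
    intro n
    simp only [hy]
    rw [pow_succ]
    field_simp
  have hyY : ∀ n, Y ≤ y n := by
    intro n
    simp only [hy]
    have : 1 ≤ (1 + 1 / h) ^ n := one_le_pow₀ (by
      have : 0 < 1 / h := by positivity
      linarith)
    nlinarith
  have hy00 : y 0 = Y := by simp only [hy, pow_zero, mul_one]
  -- induction over the blocks
  have hind : ∀ n : ℕ, ∑ d ∈ Icc 1 ⌊y n⌋₊, g d ≤ ∑ d ∈ Icc 1 ⌊Y⌋₊, g d +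
      C * (∫ t in Y..y n, F (x / t)) + n * (C * x / h ^ 2) + C * (y n - Y) := by
    intro n
    induction n with
    | zero =>
      rw [hy00, intervalIntegral.integral_same]
      simp
    | succ n ih =>
      have hyn1 : 1 ≤ y n := hY1.trans (hyY n)
      have hyn0 : 0 < y n := by linarith
      have hle : y n ≤ y (n + 1) := by
        rw [hyS]
        have : 0 < y n / h := by positivity
        linarith
      have hfl : ⌊y n⌋₊ ≤ ⌊y (n + 1)⌋₊ := Nat.floor_mono hle
      have hsplit : ∑ d ∈ Icc 1 ⌊y (n + 1)⌋₊, g d =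
          ∑ d ∈ Icc 1 ⌊y n⌋₊, g d + ∑ d ∈ IocN (y n) (y n + y n / h), g d := by
        unfold IocN
        rw [← hyS n, ← sum_union]
        · congr 1
          ext d
          simp only [mem_Icc, mem_union, mem_Ioc]
          omega
        · rw [disjoint_left]
          intro d hd hd'
          rw [mem_Icc] at hd
          rw [mem_Ioc] at hd'
          omega
      have hblk := h2_block hF hF1 hF2 hC hh hx0.le hyn1
        (hy0 (y n) (hYy.trans (hyY n)))
      have hadj : (∫ t in Y..y n, F (x / t)) + ∫ t in (y n)..(y (n + 1)), F (x / t) =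
          ∫ t in Y..y (n + 1), F (x / t) :=
        intervalIntegral.integral_add_adjacent_intervals
          (h2_intble hF hF1 hx0.le hY1 hyn1)
          (h2_intble hF hF1 hx0.le hyn1 (hyn1.trans hle))
      rw [hsplit, ← hadj]
      have e1 : y (n + 1) - Y = (y n - Y) + y n / h := by rw [hyS]; ring
      rw [e1, hyS n]
      push_cast
      have h9 : ∑ d ∈ IocN (y n) (y n + y n / h), g d ≤
        C * (∫ t in (y n)..(y n + y n / h), F (x / t)) + C * x / h ^ 2 + C * (y n / h) := hblk
      nlinarith [ih, h9]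
  -- the last block
  have hex : ∃ n, x ≤ y n := by
    refine ⟨⌈2 * h * Real.log x⌉₊, ?_⟩
    have h1 : 1 / (2 * h) ≤ Real.log (1 + 1 / h) := by
      have h2 := Real.one_sub_inv_le_log_of_pos (show 0 < 1 + 1 / h by positivity)
      refine le_trans ?_ h2
      have h3 : 1 - (1 + 1 / h)⁻¹ = 1 / (h + 1) := by
        field_simp
        ring
      rw [h3]
      exact one_div_le_one_div_of_le (by positivity) (by linarith)
    have h4 : Real.log x ≤ (⌈2 * h * Real.log x⌉₊ : ℝ) * Real.log (1 + 1 / h) := by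
      have h5 := Nat.le_ceil (2 * h * Real.log x)
      calc Real.log x = (2 * h * Real.log x) * (1 / (2 * h)) := by field_simp
        _ ≤ (⌈2 * h * Real.log x⌉₊ : ℝ) * Real.log (1 + 1 / h) := by gcongr
    have h6 : x ≤ (1 + 1 / h) ^ ⌈2 * h * Real.log x⌉₊ := by
      rw [← Real.log_le_log_iff hx0 (by positivity), Real.log_pow]
      exact h4
    simp only [hy]
    have h7 : 0 ≤ (1 + 1 / h) ^ ⌈2 * h * Real.log x⌉₊ := by positivity
    nlinarith
  classical
  set n := Nat.find hex with hn
  have hnx : x ≤ y n := Nat.find_spec hex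
  have hn2 : y n ≤ 2 * x := by
    rcases Nat.eq_zero_or_pos n with h0 | hpos
    · rw [h0, hy00]
      linarith
    · obtain ⟨k, hk⟩ := Nat.exists_eq_succ_of_ne_zero hpos.ne'
      have h1 : y k < x := by
        have h2 := Nat.find_min hex (m := k) (by rw [← hn, hk]; exact Nat.lt_succ_self k)
        exact not_le.1 h2
      rw [hk, Nat.succ_eq_add_one, hyS]
      have h3 : y k / h ≤ y k := div_le_self (by linarith [hyY k]) hh
      linarith
  have hnle : (n : ℝ) ≤ 2 * h * Real.log x + 1 := by
    have h1 : n ≤ ⌈2 * h * Real.log x⌉₊ := by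
      refine Nat.find_min' hex ?_
      have h1 : 1 / (2 * h) ≤ Real.log (1 + 1 / h) := by
        have h2 := Real.one_sub_inv_le_log_of_pos (show 0 < 1 + 1 / h by positivity)
        refine le_trans ?_ h2
        have h3 : 1 - (1 + 1 / h)⁻¹ = 1 / (h + 1) := by
          field_simp
          ring
        rw [h3]
        exact one_div_le_one_div_of_le (by positivity) (by linarith)
      have h4 : Real.log x ≤ (⌈2 * h * Real.log x⌉₊ : ℝ) * Real.log (1 + 1 / h) := by
        have h5 := Nat.le_ceil (2 * h * Real.log x)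
        calc Real.log x = (2 * h * Real.log x) * (1 / (2 * h)) := by field_simp
          _ ≤ (⌈2 * h * Real.log x⌉₊ : ℝ) * Real.log (1 + 1 / h) := by gcongr
      have h6 : x ≤ (1 + 1 / h) ^ ⌈2 * h * Real.log x⌉₊ := by
        rw [← Real.log_le_log_iff hx0 (by positivity), Real.log_pow]
        exact h4
      simp only [hy]
      have h7 : 0 ≤ (1 + 1 / h) ^ ⌈2 * h * Real.log x⌉₊ := by positivity
      nlinarith
    have h2 : (n : ℝ) ≤ (⌈2 * h * Real.log x⌉₊ : ℝ) := by exact_mod_cast h1
    have h3 := Nat.ceil_lt_add_one (show 0 ≤ 2 * h * Real.log x by positivity)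
    linarith
  -- small `d`
  have hsmall : ∑ d ∈ Icc 1 ⌊Y⌋₊, g d ≤ x * K := by
    rw [hK, mul_sum]
    refine sum_le_sum fun d hd => ?_
    have h1 := (hF1 (x / d) (by positivity)).2
    calc g d ≤ ArithmeticFunction.vonMangoldt d * (x / d) :=
          mul_le_mul_of_nonneg_left h1 ArithmeticFunction.vonMangoldt_nonneg
      _ = _ := by ring
  -- the integral
  have hint : ∫ t in Y..y n, F (x / t) ≤ x * (∫ u in (1 : ℝ)..x, F u / u ^ 2) + x := by
    have hx1 : 1 ≤ x := hY1.trans hxY
    have hadj : (∫ t in Y..x, F (x / t)) + ∫ t in x..(y n), F (x / t) =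
        ∫ t in Y..y n, F (x / t) :=
      intervalIntegral.integral_add_adjacent_intervals
        (h2_intble hF hF1 hx0.le hY1 hx1)
        (h2_intble hF hF1 hx0.le hx1 (hx1.trans hnx))
    rw [← hadj]
    have h1 := h2_subst hF hF1 hY1 hxY
    have h2 : ∫ t in x..(y n), F (x / t) ≤ x := by
      have h3 : ∫ t in x..(y n), F (x / t) ≤ ∫ _t in x..(y n), (1 : ℝ) := by
        refine intervalIntegral.integral_mono_on hnx
          (h2_intble hF hF1 hx0.le hx1 (hx1.trans hnx)) (by simp) fun t ht => ?_
        have ht0 : 0 < t := by linarith [ht.1]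
        refine ((hF1 (x / t) (by positivity)).2).trans ?_
        rw [div_le_one ht0]
        exact ht.1
      rw [intervalIntegral.integral_const, smul_eq_mul, mul_one] at h3
      linarith
    linarith
  have hJ0 : 0 ≤ ∫ u in (1 : ℝ)..x, F u / u ^ 2 := by
    refine intervalIntegral.integral_nonneg (hY1.trans hxY) fun u hu => ?_
    have hu0 : 0 < u := by linarith [hu.1]
    exact div_nonneg (hF1 u hu0.le).1 (by positivity)
  have hsub : ∑ d ∈ Icc 1 ⌊x⌋₊, g d ≤ ∑ d ∈ Icc 1 ⌊y n⌋₊, g d := by
    refine sum_le_sum_of_subset_of_nonneg ?_ fun d _ _ => hg0 d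
    exact Icc_subset_Icc_right (Nat.floor_mono hnx)
  have hmain := hsub.trans (hind n)
  have hL : x ≤ x * Real.log x / h := by
    rw [le_div_iff₀ hh0]
    refine mul_le_mul_of_nonneg_left ?_ hx0.le
    nlinarith
  have hL2 : x * K ≤ x * Real.log x / h := by
    rw [le_div_iff₀ hh0, mul_assoc]
    refine mul_le_mul_of_nonneg_left ?_ hx0.le
    nlinarith
  have hL3 : (n : ℝ) * (C * x / h ^ 2) ≤ 3 * C * (x * Real.log x / h) := by
    calc (n : ℝ) * (C * x / h ^ 2) ≤ (2 * h * Real.log x + 1) * (C * x / h ^ 2) := by gcongr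
      _ = 2 * C * (x * Real.log x / h) + C * (x / h ^ 2) := by field_simp
      _ ≤ 2 * C * (x * Real.log x / h) + C * (x * Real.log x / h) := by
          have : x / h ^ 2 ≤ x * Real.log x / h := by
            rw [div_le_div_iff₀ (by positivity) hh0]
            have h1 : x * h ≤ x * h * (Real.log x * h) := by
              have h2 : 1 ≤ Real.log x * h := by nlinarith
              have h3 : 0 ≤ x * h := by positivity
              nlinarith
            nlinarith
          gcongr
      _ = 3 * C * (x * Real.log x / h) := by ring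
  set Lx := x * Real.log x / h with hLx
  set J := ∫ u in (1 : ℝ)..x, F u / u ^ 2 with hJ
  have hgoal : (6 * C + 1) * x * Real.log x / h = (6 * C + 1) * Lx := by
    rw [hLx]; ring
  rw [hgoal]
  have e1 : C * (∫ t in Y..y n, F (x / t)) ≤ C * (x * J + x) :=
    mul_le_mul_of_nonneg_left hint hC.le
  have e2 : C * (y n - Y) ≤ C * (2 * x) := mul_le_mul_of_nonneg_left (by linarith) hC.le
  have e3 : C * x ≤ C * Lx := mul_le_mul_of_nonneg_left hL hC.le
  have e4 : 0 ≤ x * J := by positivity
  have e5 : C * (x * J) ≤ (6 * C + 1) * x * J := by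
    have : 0 ≤ C * (x * J) := mul_nonneg hC.le e4
    linarith
  have hfin : ∑ d ∈ Icc 1 ⌊x⌋₊, g d ≤ (6 * C + 1) * x * J + (6 * C + 1) * Lx := by
    linarith [hmain, hsmall, hL2, hL3, e1, e2, e3, e5]
  exact hfin

end Pool.Agent.Helper40.MR
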