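import Pool.Agent.Helper40.MR.Defs

/-!
Module H5: bound for the Dirichlet series from the distance.
-/

open Finset MeasureTheory
open scoped BigOperators Nat

namespace Pool.Agent.Helper40.MR

/-- the sum over the primes -/
noncomputable def h5_Z (σ : ℝ) : ℝ := ∑' p : Nat.Primes, (p : ℝ) ^ (-(1 + σ))

theorem h5_summable {σ : ℝ} (hσ : 0 < σ) :
    Summable (fun p : Nat.Primes => (p : ℝ) ^ (-(1 + σ))) := by
  rw [Nat.Primes.summable_rpow]
  linarith

theorem h5_nit_norm (n : ℕ) (t : ℝ) : ‖nit n t‖ = 1 := by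
  unfold nit
  have h : (-(((t * Real.log n : ℝ)) : ℂ) * Complex.I) =
      (((-(t * Real.log n) : ℝ)) : ℂ) * Complex.I := by
    push_cast
    ring
  rw [h]
  exact Complex.norm_exp_ofReal_mul_I _

theorem h5_re_le {g : ℕ → ℂ} (hg : CM g) (y : ℝ) (n : ℕ) : |(g n * nit n y).re| ≤ 1 := by
  refine (Complex.abs_re_le_norm _).trans ?_
  rw [norm_mul, h5_nit_norm, mul_one]
  exact hg.2.2 n

theorem h5_summable_g {g : ℕ → ℂ} (hg : CM g) {σ : ℝ} (hσ : 0 < σ) (y : ℝ) :
    Summable (fun p : Nat.Primes => (g p * nit p y).re * (p : ℝ) ^ (-(1 + σ))) := by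
  refine Summable.of_norm_bounded (h5_summable hσ) fun p => ?_
  have h0 : 0 ≤ (p : ℝ) ^ (-(1 + σ)) := by positivity
  rw [Real.norm_eq_abs, abs_mul, abs_of_nonneg h0]
  have := h5_re_le hg y p
  nlinarith

theorem h5_anti {σ σ' : ℝ} (hσ : 0 < σ) (h : σ ≤ σ') : h5_Z σ' ≤ h5_Z σ := by
  unfold h5_Z
  refine (h5_summable (lt_of_lt_of_le hσ h)).tsum_le_tsum (fun p => ?_) (h5_summable hσ)
  have hp : (1 : ℝ) ≤ (p : ℝ) := by exact_mod_cast p.2.one_lt.le
  exact Real.rpow_le_rpow_of_exponent_le hp (by linarith)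

theorem h5_compare {g : ℕ → ℂ} (hg : CM g) {σ σ' : ℝ} (hσ : 0 < σ) (h : σ ≤ σ') (y : ℝ) :
    ∑' p : Nat.Primes, (g p * nit p y).re * (p : ℝ) ^ (-(1 + σ')) ≤
      ∑' p : Nat.Primes, (g p * nit p y).re * (p : ℝ) ^ (-(1 + σ)) + h5_Z σ - h5_Z σ' := by
  have hσ' : 0 < σ' := lt_of_lt_of_le hσ h
  unfold h5_Z
  rw [← (h5_summable_g hg hσ y).tsum_add (h5_summable hσ),
    ← ((h5_summable_g hg hσ y).add (h5_summable hσ)).tsum_sub (h5_summable hσ')]
  refine (h5_summable_g hg hσ' y).tsum_le_tsum (fun p => ?_)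
    (((h5_summable_g hg hσ y).add (h5_summable hσ)).sub (h5_summable hσ'))
  have hp : (1 : ℝ) ≤ (p : ℝ) := by exact_mod_cast p.2.one_lt.le
  have h1 : (p : ℝ) ^ (-(1 + σ')) ≤ (p : ℝ) ^ (-(1 + σ)) :=
    Real.rpow_le_rpow_of_exponent_le hp (by linarith)
  have h2 := (abs_le.1 (h5_re_le hg y p)).1
  nlinarith

theorem h5_Z_bound (hS : ST_SIG) (hM : ST_MER) : ∃ C : ℝ, 0 < C ∧
    (∀ x : ℝ, 3 ≤ x → h5_Z (1 / Real.log x) ≤ Real.log (Real.log x) + C) ∧
    ∀ σ : ℝ, 0 < σ → σ ≤ 1 → |h5_Z σ - Real.log (1 / σ)| ≤ C := by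
  obtain ⟨C1, hC1, hS⟩ := hS
  obtain ⟨C2, hC2, hM⟩ := hM
  have hx : ∀ x : ℝ, 3 ≤ x → |h5_Z (1 / Real.log x) - Real.log (Real.log x)| ≤ C1 + C2 := by
    intro x hx
    have h1 := hS (fun _ => 1) x (by intro n; simp) hx
    have h2 := (hM x hx).1
    simp only [one_mul] at h1
    have h3 : h5_Z (1 / Real.log x) - Real.log (Real.log x) =
        (∑' p : Nat.Primes, (p : ℝ) ^ (-(1 + 1 / Real.log x)) - ∑ p ∈ PrL x, 1 / (p : ℝ)) +
        (∑ p ∈ PrL x, 1 / (p : ℝ) - Real.log (Real.log x)) := by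
      unfold h5_Z
      ring
    rw [h3]
    exact (abs_add_le _ _).trans (add_le_add h1 h2)
  have hl3 : 1 < Real.log 3 := by
    rw [Real.lt_log_iff_exp_lt (by norm_num)]
    exact lt_trans Real.exp_one_lt_d9 (by norm_num)
  have hl3' : Real.log 3 ≤ 2 := by
    have := Real.log_le_sub_one_of_pos (show (0 : ℝ) < 3 by norm_num)
    linarith
  refine ⟨C1 + C2 + 2, by positivity, ?_, ?_⟩
  · intro x h
    have := (abs_le.1 (hx x h)).2
    linarith
  · intro σ hσ hσ1
    rcases le_or_gt σ (1 / Real.log 3) with h | h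
    · have h1 : Real.log 3 ≤ 1 / σ := by
        rw [le_div_iff₀ hσ]
        rw [le_div_iff₀ (by linarith)] at h
        linarith
      have h2 : (3 : ℝ) ≤ Real.exp (1 / σ) := by
        rw [← Real.log_le_iff_le_exp (by norm_num)]
        exact h1
      have h3 := hx _ h2
      rw [Real.log_exp, one_div_one_div] at h3
      linarith
    · have hpos : 0 < 1 / Real.log 3 := by positivity
      have h1 := h5_anti hpos h.le
      have h2 := (abs_le.1 (hx 3 le_rfl)).2
      have h3 : 0 ≤ h5_Z σ := by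
        unfold h5_Z
        exact tsum_nonneg fun p => by positivity
      have h4 : 0 ≤ Real.log (1 / σ) := by
        apply Real.log_nonneg
        rw [le_div_iff₀ hσ]
        linarith
      have h5 : Real.log (1 / σ) ≤ Real.log (Real.log 3) := by
        apply Real.log_le_log (by positivity)
        rw [div_le_iff₀ hσ]
        rw [div_lt_iff₀ (by linarith)] at h
        linarith
      have h6 : Real.log (Real.log 3) ≤ 1 := by
        have := Real.log_le_sub_one_of_pos (show (0 : ℝ) < Real.log 3 by linarith)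
        linarith
      rw [abs_le]
      constructor <;> linarith

theorem st_H5 (hE : ST_EUL) (hS : ST_SIG) (hM : ST_MER) : ST_H5 := by
  obtain ⟨CZ, hCZ, hZ1, hZ2⟩ := h5_Z_bound hS hM
  obtain ⟨CE, hCE, hE⟩ := hE
  obtain ⟨C1, hC1, hS⟩ := hS
  obtain ⟨C2, hC2, hM⟩ := hM
  refine ⟨Real.exp (CE + C1 + C2 + 2 * CZ), Real.exp_pos _, ?_⟩
  intro g hg x B y σ hx hB hσx hσ1
  have hlx : 1 < Real.log x := by
    rw [Real.lt_log_iff_exp_lt (by linarith)]
    exact lt_of_lt_of_le (lt_trans Real.exp_one_lt_d9 (by norm_num)) hx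
  have hlx0 : 0 < Real.log x := by linarith
  have hσ0 : 0 < 1 / Real.log x := by positivity
  have hσ : 0 < σ := lt_of_lt_of_le hσ0 hσx
  obtain ⟨hne, hlog⟩ := hE g hg σ y hσ hσ1
  have hpos : 0 < ‖Gv g σ y‖ := norm_pos_iff.2 hne
  have hlog' := (abs_le.1 hlog).2
  have hZσ := abs_le.1 (hZ2 σ hσ hσ1)
  constructor
  · have h1 : ∑' p : Nat.Primes, (g p * nit p y).re * (p : ℝ) ^ (-(1 + σ)) ≤ h5_Z σ := by
      unfold h5_Z
      refine (h5_summable_g hg hσ y).tsum_le_tsum (fun p => ?_) (h5_summable hσ)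
      have h0 : 0 ≤ (p : ℝ) ^ (-(1 + σ)) := by positivity
      have := (abs_le.1 (h5_re_le hg y p)).2
      nlinarith
    have h2 : Real.log ‖Gv g σ y‖ ≤ (CE + C1 + C2 + 2 * CZ) + Real.log (1 / σ) := by
      linarith [hZσ.2]
    rw [Real.log_le_iff_le_exp hpos, Real.exp_add, Real.exp_log (by positivity)] at h2
    refine h2.trans (le_of_eq ?_)
    ring
  · have h1 := h5_compare hg hσ0 hσx y
    have h2 := (abs_le.1 (hS (fun n => (g n * nit n y).re) x (h5_re_le hg y) hx)).2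
    have h3 : ∑ p ∈ PrL x, (g p * nit p y).re / (p : ℝ) ≤ Real.log (Real.log x) + C2 - B := by
      have h4 := (abs_le.1 (hM x hx).1).2
      have h5 : ∑ p ∈ PrL x, (g p * nit p y).re / (p : ℝ) =
          ∑ p ∈ PrL x, 1 / (p : ℝ) - ∑ p ∈ PrL x, (1 - (g p * nit p y).re) / (p : ℝ) := by
        rw [← sum_sub_distrib]
        refine sum_congr rfl fun p _ => ?_
        ring
      rw [h5]
      linarith
    have h6 := hZ1 x hx
    have h7 : Real.log (1 / σ) = -Real.log σ := by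
      rw [one_div, Real.log_inv]
    have h8 : Real.log ‖Gv g σ y‖ ≤ (CE + C1 + C2 + 2 * CZ) +
        (Real.log σ + 2 * Real.log (Real.log x) + -B) := by
      have h9 := hZσ.1
      rw [h7] at h9
      linarith
    rw [Real.log_le_iff_le_exp hpos, Real.exp_add (CE + C1 + C2 + 2 * CZ)] at h8
    have h10 : Real.exp (2 * Real.log (Real.log x)) = (Real.log x) ^ 2 := by
      rw [two_mul, Real.exp_add, Real.exp_log hlx0, sq]
    have h11 : Real.exp (Real.log σ + 2 * Real.log (Real.log x) + -B) =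
        σ * (Real.log x) ^ 2 * Real.exp (-B) := by
      rw [Real.exp_add, Real.exp_add, Real.exp_log hσ, h10]
    rw [h11] at h8
    refine h8.trans (le_of_eq ?_)
    ring

end Pool.Agent.Helper40.MR
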