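import Pool.Agent.Helper40.MR.Defs

/-!
Module VDC: van der Corput bound for sums of `(m + β) ^ (i u)`.
-/

open Finset MeasureTheory
open scoped BigOperators Nat

namespace Pool.Agent.Helper40.MR

theorem vdc_dl_smul (c : ℝ) (hs : List ℕ) (F : ℕ → ℝ) (n : ℕ) :
    dl hs (fun n => c * F n) n = c * dl hs F n := by
  induction hs generalizing n with
  | nil => rfl
  | cons h hs ih =>
    show dl hs (fun n => c * F n) (n + h) - dl hs (fun n => c * F n) n = _
    rw [ih, ih, ← mul_sub]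
    rfl

theorem vdc_xiu (m : ℕ) (β u : ℝ) :
    xiu (m + β) u = ee (u / (2 * Real.pi) * Real.log (m + β)) := by
  unfold xiu ee
  congr 3
  have := Real.pi_pos
  field_simp

theorem vdc_ee_neg (x : ℝ) : ee (-x) = (starRingEnd ℂ) (ee x) := by
  unfold ee
  rw [← Complex.exp_conj]
  congr 1
  rw [map_mul, Complex.conj_ofReal, Complex.conj_I]
  push_cast
  ring

theorem vdc_norm_neg (s : Finset ℕ) (G : ℕ → ℝ) :
    ‖∑ n ∈ s, ee (-(G n))‖ = ‖∑ n ∈ s, ee (G n)‖ := by
  simp only [vdc_ee_neg]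
  rw [← map_sum, RCLike.norm_conj]

theorem vdc_ee_norm (x : ℝ) : ‖ee x‖ = 1 := by
  unfold ee
  exact Complex.norm_exp_ofReal_mul_I _

theorem vdc_step {CK : ℝ}
    (hCK : ∀ (G : ℕ → ℝ) (a b : ℕ) (l : ℝ), a ≤ b → 0 < l →
      (∀ n, a ≤ n → n ≤ b → l ≤ G (n + 1) - G n ∧ G (n + 1) - G n ≤ 1 / 2) →
      ((∀ n, a ≤ n → n ≤ b → G (n + 1) - G n ≤ G (n + 2) - G (n + 1)) ∨
       (∀ n, a ≤ n → n ≤ b → G (n + 2) - G (n + 1) ≤ G (n + 1) - G n)) →
      ‖∑ n ∈ Ioc a b, ee (G n)‖ ≤ CK / l)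
    (hDL : ST_DL) (k : ℕ) (hs : List ℕ) (hlen : hs.length = k) (hpos : ∀ h ∈ hs, 1 ≤ h)
    {β u M : ℝ} (hβ0 : 0 ≤ β) (hβ1 : β ≤ 1) (hu : 0 < u) (hM : 1 ≤ M) (a b : ℕ)
    (ha : M ≤ a) (hab : a ≤ b) (hb : (b : ℝ) ≤ 2 * M) (hsum : (hs.sum : ℝ) ≤ k * M)
    (hup : u / (2 * Real.pi) * ((k ! : ℝ) * hs.prod / M ^ (k + 1)) ≤ 1 / 2) :
    ‖∑ n ∈ Ioc a b, ee (dl hs (fun n => u / (2 * Real.pi) * Real.log (n + β)) n)‖ ≤
      CK / (u / (2 * Real.pi) * ((k ! : ℝ) * hs.prod / M ^ (k + 1)) / ((k : ℝ) + 4) ^ (k + 1)) := by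
  have hpi := Real.pi_pos
  have hM0 : 0 < M := by linarith
  have hcu : 0 < u / (2 * Real.pi) := by positivity
  have hprod : 0 < (hs.prod : ℝ) := by
    have : 0 < hs.prod := List.prod_pos fun h hh => hpos h hh
    exact_mod_cast this
  set G : ℕ → ℝ := fun n => dl hs (fun n => u / (2 * Real.pi) * Real.log (n + β)) n with hG
  have hd1 : ∀ n, G (n + 1) - G n =
      u / (2 * Real.pi) * dl (1 :: hs) (fun n => Real.log (n + β)) n := by
    intro n
    rw [← vdc_dl_smul]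
    rfl
  have hd2 : ∀ n, (G (n + 2) - G (n + 1)) - (G (n + 1) - G n) =
      u / (2 * Real.pi) * dl (1 :: 1 :: hs) (fun n => Real.log (n + β)) n := by
    intro n
    rw [← vdc_dl_smul]
    rfl
  set l : ℝ := u / (2 * Real.pi) * ((k ! : ℝ) * hs.prod / M ^ (k + 1)) / ((k : ℝ) + 4) ^ (k + 1)
    with hl
  have hl0 : 0 < l := by
    rw [hl]
    positivity
  have key1 : ∀ n, a ≤ n → n ≤ b → l ≤ (-1) ^ k * (G (n + 1) - G n) ∧
      (-1) ^ k * (G (n + 1) - G n) ≤ 1 / 2 := by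
    intro n hna hnb
    have hnM : M ≤ n := ha.trans (by exact_mod_cast hna)
    have hn2M : (n : ℝ) ≤ 2 * M := le_trans (by exact_mod_cast hnb) hb
    have hn1 : 1 ≤ n := by
      have : (1 : ℝ) ≤ n := hM.trans hnM
      exact_mod_cast this
    have hD := hDL k (1 :: hs) β n (by rw [List.length_cons, hlen])
      (by
        intro h hh
        rcases List.mem_cons.1 hh with rfl | hh
        · exact le_rfl
        · exact hpos h hh) hβ0 hβ1 hn1
    rw [List.prod_cons, List.sum_cons, one_mul] at hD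
    have e1 : (-1) ^ k * (G (n + 1) - G n) = u / (2 * Real.pi) *
        ((-1) ^ k * dl (1 :: hs) (fun n => Real.log (n + β)) n) := by
      rw [hd1]; ring
    rw [e1]
    constructor
    · have h1 : (k ! : ℝ) * hs.prod / M ^ (k + 1) / ((k : ℝ) + 4) ^ (k + 1) ≤
          (k ! : ℝ) * hs.prod / ((n : ℝ) + 1 + ((1 + hs.sum : ℕ) : ℝ)) ^ (k + 1) := by
        rw [div_div, ← mul_pow]
        refine div_le_div_of_nonneg_left (by positivity) (by positivity) ?_
        refine pow_le_pow_left₀ (by positivity) ?_ _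
        rw [Nat.cast_add, Nat.cast_one]
        nlinarith
      calc l = u / (2 * Real.pi) * ((k ! : ℝ) * hs.prod / M ^ (k + 1) /
            ((k : ℝ) + 4) ^ (k + 1)) := by rw [hl, mul_div_assoc]
        _ ≤ _ := mul_le_mul_of_nonneg_left (h1.trans hD.1) hcu.le
    · have h1 : (k ! : ℝ) * hs.prod / (n : ℝ) ^ (k + 1) ≤
          (k ! : ℝ) * hs.prod / M ^ (k + 1) := by
        refine div_le_div_of_nonneg_left (by positivity) (by positivity) ?_
        exact pow_le_pow_left₀ hM0.le hnM _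
      exact (mul_le_mul_of_nonneg_left (hD.2.trans h1) hcu.le).trans hup
  have key2 : ∀ n, a ≤ n → n ≤ b → (-1) ^ k * (G (n + 2) - G (n + 1)) ≤
      (-1) ^ k * (G (n + 1) - G n) := by
    intro n hna hnb
    have hnM : M ≤ n := ha.trans (by exact_mod_cast hna)
    have hn1 : 1 ≤ n := by
      have : (1 : ℝ) ≤ n := hM.trans hnM
      exact_mod_cast this
    have hD := (hDL (k + 1) (1 :: 1 :: hs) β n
      (by rw [List.length_cons, List.length_cons, hlen])
      (by
        intro h hh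
        rcases List.mem_cons.1 hh with rfl | hh
        · exact le_rfl
        · rcases List.mem_cons.1 hh with rfl | hh
          · exact le_rfl
          · exact hpos h hh) hβ0 hβ1 hn1).1
    have h0 : 0 ≤ (-1 : ℝ) ^ (k + 1) * dl (1 :: 1 :: hs) (fun n => Real.log (n + β)) n :=
      le_trans (by positivity) hD
    have e1 : (-1) ^ k * (G (n + 1) - G n) - (-1) ^ k * (G (n + 2) - G (n + 1)) =
        u / (2 * Real.pi) *
          ((-1) ^ (k + 1) * dl (1 :: 1 :: hs) (fun n => Real.log (n + β)) n) := by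
      have := hd2 n
      rw [pow_succ]
      linear_combination (-(-1 : ℝ) ^ k) * this
    have h1 := mul_nonneg hcu.le h0
    rw [← e1] at h1
    linarith
  have hfin := hCK (fun n => (-1) ^ k * G n) a b l hab hl0
    (by
      intro n hna hnb
      have := key1 n hna hnb
      rw [← mul_sub]
      exact this)
    (Or.inr (by
      intro n hna hnb
      have := key2 n hna hnb
      rw [← mul_sub, ← mul_sub]
      exact this))
  rcases Nat.even_or_odd k with hk | hk
  · simp only [hk.neg_one_pow, one_mul] at hfin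
    exact hfin
  · simp only [hk.neg_one_pow, neg_one_mul] at hfin
    rw [vdc_norm_neg] at hfin
    exact hfin

theorem vdc_trivial (β u M : ℝ) (a b : ℕ) (ha : M ≤ a) (hab : a ≤ b) (hb : (b : ℝ) ≤ 2 * M) :
    ‖∑ m ∈ Ioc a b, xiu (m + β) u‖ ≤ M := by
  refine (norm_sum_le _ _).trans ?_
  have : ∀ m ∈ Ioc a b, ‖xiu (m + β) u‖ = 1 := by
    intro m _
    rw [vdc_xiu, vdc_ee_norm]
  rw [sum_congr rfl this, sum_const, nsmul_eq_mul, mul_one, Nat.card_Ioc, Nat.cast_sub hab]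
  linarith

theorem vdc_harm (k H : ℕ) {M : ℝ} (hH1 : 1 ≤ H) (hH : (H : ℝ) ≤ M) :
    ∑ h ∈ Fintype.piFinset (fun _ : Fin k => Icc 1 H), ∏ i, ((h i : ℝ))⁻¹ ≤
      (1 + Real.log M) ^ k := by
  rw [← Finset.prod_univ_sum (fun _ : Fin k => Icc 1 H) (fun _ j => ((j : ℝ))⁻¹)]
  rw [prod_const, card_univ, Fintype.card_fin]
  refine pow_le_pow_left₀ (sum_nonneg fun j _ => by positivity) ?_ _
  have h1 := harmonic_le_one_add_log H
  have h2 : (harmonic H : ℝ) = ∑ j ∈ Icc 1 H, ((j : ℝ))⁻¹ := by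
    rw [harmonic_eq_sum_Icc]
    push_cast
    rfl
  rw [← h2]
  refine h1.trans ?_
  have h3 : (0 : ℝ) < H := by exact_mod_cast hH1
  have h4 := Real.log_le_log h3 hH
  linarith

theorem vdc_log (k : ℕ) (hk : 1 ≤ k) {M : ℝ} (hM : 1 ≤ M) :
    (1 + Real.log M) ^ k ≤ (1 + 2 * k) ^ k * M ^ (1 / 2 : ℝ) := by
  have hk0 : (0 : ℝ) < k := by exact_mod_cast hk
  have hM0 : 0 < M := by linarith
  have h1 : Real.log M ≤ M ^ (1 / (2 * k) : ℝ) / (1 / (2 * k)) :=
    Real.log_le_rpow_div hM0.le (by positivity)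
  have h2 : 1 ≤ M ^ (1 / (2 * k) : ℝ) := Real.one_le_rpow hM (by positivity)
  have h3 : 1 + Real.log M ≤ (1 + 2 * k) * M ^ (1 / (2 * k) : ℝ) := by
    have h4 : M ^ (1 / (2 * k) : ℝ) / (1 / (2 * k)) = 2 * k * M ^ (1 / (2 * k) : ℝ) := by
      field_simp
    rw [h4] at h1
    linarith
  have h5 : 0 ≤ 1 + Real.log M := by
    have := Real.log_nonneg hM
    linarith
  calc (1 + Real.log M) ^ k ≤ ((1 + 2 * k) * M ^ (1 / (2 * k) : ℝ)) ^ k :=
        pow_le_pow_left₀ h5 h3 k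
    _ = (1 + 2 * k) ^ k * M ^ (1 / 2 : ℝ) := by
        rw [mul_pow, ← Real.rpow_natCast (M ^ (1 / (2 * k) : ℝ)) k, ← Real.rpow_mul hM0.le]
        congr 2
        field_simp

theorem vdc_pos (hK : ST_KL) (hW : ST_WV) (hDL : ST_DL) (A : ℝ) :
    ∃ c : ℝ, 0 < c ∧ ∃ C : ℝ, 0 < C ∧
      ∀ (M β u : ℝ) (a b : ℕ), 1 ≤ M → 0 ≤ β → β ≤ 1 → M ^ (1 / 2 : ℝ) ≤ u → u ≤ M ^ A →
      M ≤ a → a ≤ b → (b : ℝ) ≤ 2 * M → ‖∑ m ∈ Ioc a b, xiu (m + β) u‖ ≤ C * M ^ (1 - c) := by
  have hpi := Real.pi_pos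
  have hpi3 : Real.pi < 4 := Real.pi_lt_four
  obtain ⟨CK, hCK0, hCK⟩ := hK
  set k : ℕ := max 3 ⌈A⌉₊ with hk
  have hk3 : 3 ≤ k := le_max_left _ _
  have hkA : A ≤ k := (Nat.le_ceil A).trans (by exact_mod_cast le_max_right 3 ⌈A⌉₊)
  have hkR : (3 : ℝ) ≤ k := by exact_mod_cast hk3
  have hfac : (6 : ℝ) ≤ (k ! : ℝ) := by
    have h1 : (3 : ℕ)! ≤ k ! := Nat.factorial_le hk3
    have h2 : (3 : ℕ)! = 6 := rfl
    rw [h2] at h1
    exact_mod_cast h1
  obtain ⟨CW, hCW0, hCW⟩ := hW k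
  set m : ℕ := 2 ^ k with hm
  have hm1 : 1 ≤ m := Nat.one_le_two_pow
  have hmR : (1 : ℝ) ≤ m := by exact_mod_cast hm1
  set K : ℝ := CW * (2 * (k ! : ℝ) + 2 ^ (k + 1) * (CK * ((k : ℝ) + 4) ^ (k + 1)) *
    (1 + 2 * k) ^ k) with hKdef
  have hK0 : 0 ≤ K := by rw [hKdef]; positivity
  set c : ℝ := 1 / (k * m) with hc
  have hc0 : 0 < c := by rw [hc]; positivity
  have hc2 : c ≤ 1 / 2 := by
    rw [hc]
    refine one_div_le_one_div_of_le (by norm_num) ?_
    nlinarith
  refine ⟨c, hc0, 8 * Real.pi * CK + (K + 1) + k !, by positivity, ?_⟩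
  intro M β u a b hM hβ0 hβ1 hu1 hu2 ha hab hb
  have hM0 : 0 < M := by linarith
  have hu : 0 < u := lt_of_lt_of_le (Real.rpow_pos_of_pos hM0 _) hu1
  have hMc0 : 0 < M ^ (1 - c) := Real.rpow_pos_of_pos hM0 _
  have hS : ∀ n : ℕ, xiu (n + β) u = ee ((fun n : ℕ => u / (2 * Real.pi) *
      Real.log (n + β)) n) := fun n => vdc_xiu n β u
  rcases le_or_gt M (k ! : ℝ) with hsmall | hlarge
  · -- small `M`
    have h1 := vdc_trivial β u M a b ha hab hb
    have h2 : M ≤ (k ! : ℝ) * M ^ (1 - c) := by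
      have h3 : M = M ^ c * M ^ (1 - c) := by
        rw [← Real.rpow_add hM0]
        rw [show c + (1 - c) = 1 by ring, Real.rpow_one]
      have h4 : M ^ c ≤ (k ! : ℝ) := by
        calc M ^ c ≤ M ^ (1 : ℝ) := Real.rpow_le_rpow_of_exponent_le hM (by linarith)
          _ = M := Real.rpow_one M
          _ ≤ _ := hsmall
      calc M = M ^ c * M ^ (1 - c) := h3
        _ ≤ _ := mul_le_mul_of_nonneg_right h4 hMc0.le
    refine (h1.trans h2).trans (mul_le_mul_of_nonneg_right ?_ hMc0.le)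
    have : 0 ≤ 8 * Real.pi * CK + (K + 1) := by positivity
    linarith
  rcases le_or_gt u M with huM | huM
  · -- first range
    have h1 := vdc_step hCK hDL 0 [] rfl (by simp) hβ0 hβ1 hu hM a b ha hab hb (by simp) (by
      simp only [Nat.factorial_zero, Nat.cast_one, List.prod_nil, one_mul, zero_add, pow_one]
      rw [div_mul_div_comm, mul_one, div_le_div_iff₀ (by positivity) (by norm_num)]
      nlinarith [Real.pi_gt_three])
    simp only [hS]
    have h2 : CK / (u / (2 * Real.pi) * (((0 : ℕ)! : ℝ) * (([] : List ℕ).prod : ℝ) /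
        M ^ (0 + 1)) / (((0 : ℕ) : ℝ) + 4) ^ (0 + 1)) = 8 * Real.pi * CK * (M / u) := by
      simp only [Nat.factorial_zero, Nat.cast_one, List.prod_nil, one_mul, zero_add, pow_one,
        Nat.cast_zero]
      field_simp
      ring
    rw [h2] at h1
    refine h1.trans ?_
    have h3 : M / u ≤ M ^ (1 - c) := by
      have h4 : M / u ≤ M / M ^ (1 / 2 : ℝ) :=
        div_le_div_of_nonneg_left hM0.le (Real.rpow_pos_of_pos hM0 _) hu1
      have h5 : M / M ^ (1 / 2 : ℝ) = M ^ (1 / 2 : ℝ) := by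
        rw [div_eq_iff (Real.rpow_pos_of_pos hM0 _).ne', ← Real.rpow_add hM0]
        norm_num
      rw [h5] at h4
      exact h4.trans (Real.rpow_le_rpow_of_exponent_le hM (by linarith))
    have h4 : 8 * Real.pi * CK * (M / u) ≤ 8 * Real.pi * CK * M ^ (1 - c) :=
      mul_le_mul_of_nonneg_left h3 (by positivity)
    refine h4.trans (mul_le_mul_of_nonneg_right ?_ hMc0.le)
    have : (0 : ℝ) ≤ k ! := by positivity
    linarith
  · -- second range
    set x : ℝ := Real.pi * M ^ (k + 1) / ((k ! : ℝ) * u) with hx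
    have hx0 : 0 < x := by rw [hx]; positivity
    set lm : ℝ := u / (2 * Real.pi) * (k ! : ℝ) / M ^ (k + 1) with hlm
    have hlm0 : 0 < lm := by rw [hlm]; positivity
    have hxlm : x * lm = 1 / 2 := by
      rw [hx, hlm]
      field_simp
    have huk : u ≤ M ^ k := by
      refine hu2.trans ?_
      rw [← Real.rpow_natCast]
      exact Real.rpow_le_rpow_of_exponent_le hM hkA
    have hxlow : M / (k ! : ℝ) ≤ x := by
      rw [hx, div_le_div_iff₀ (by positivity) (by positivity)]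
      have h1 : M * ((k ! : ℝ) * u) ≤ M * ((k ! : ℝ) * M ^ k) := by gcongr
      have h2 : M * ((k ! : ℝ) * M ^ k) = M ^ (k + 1) * (k ! : ℝ) := by rw [pow_succ]; ring
      have h3 : M ^ (k + 1) * (k ! : ℝ) ≤ Real.pi * M ^ (k + 1) * (k ! : ℝ) := by
        have h4 : 0 ≤ M ^ (k + 1) * (k ! : ℝ) := by positivity
        nlinarith [Real.pi_gt_three]
      linarith
    have hxup : x ≤ M ^ k := by
      rw [hx, div_le_iff₀ (by positivity)]
      have h1 : M ^ k * ((k ! : ℝ) * M) ≤ M ^ k * ((k ! : ℝ) * u) := by gcongr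
      have h2 : M ^ k * ((k ! : ℝ) * M) = (k ! : ℝ) * M ^ (k + 1) := by rw [pow_succ]; ring
      have h3 : Real.pi * M ^ (k + 1) ≤ (k ! : ℝ) * M ^ (k + 1) := by
        refine mul_le_mul_of_nonneg_right ?_ (by positivity)
        linarith
      linarith
    have hk0 : (0 : ℝ) < k := by linarith
    have hkne : k ≠ 0 := by omega
    set y : ℝ := x ^ (1 / k : ℝ) with hy
    have hyk : y ^ k = x := by
      rw [hy, ← Real.rpow_natCast, ← Real.rpow_mul hx0.le]
      rw [one_div_mul_cancel hk0.ne', Real.rpow_one]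
    have hy0 : 0 < y := Real.rpow_pos_of_pos hx0 _
    have hx1 : 1 ≤ x := by
      refine le_trans ?_ hxlow
      rw [le_div_iff₀ (by positivity), one_mul]
      exact hlarge.le
    have hy1 : 1 ≤ y := Real.one_le_rpow hx1 (by positivity)
    have hyM : y ≤ M := by
      have h1 : y ^ k ≤ M ^ k := by rw [hyk]; exact hxup
      exact le_of_pow_le_pow_left₀ hkne hM0.le h1
    set H : ℕ := ⌊y⌋₊ with hH
    have hH1 : 1 ≤ H := Nat.le_floor (by rw [Nat.cast_one]; exact hy1)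
    have hHy : (H : ℝ) ≤ y := Nat.floor_le hy0.le
    have hHlow : y / 2 ≤ H := by
      have h1 := Nat.lt_floor_add_one y
      have h2 : (1 : ℝ) ≤ H := by exact_mod_cast hH1
      rw [← hH] at h1
      linarith
    have hH0 : (0 : ℝ) < H := by exact_mod_cast hH1
    have hHM : (H : ℝ) ≤ M := hHy.trans hyM
    -- the bound for the sums of the differences
    have hstep := hCW (fun n => u / (2 * Real.pi) * Real.log (n + β)) a b H M
      (fun h => CK * ((k : ℝ) + 4) ^ (k + 1) / lm * ∏ i, ((h i : ℝ))⁻¹) hab (by linarith) hH1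
      hHM (fun h => mul_nonneg (by positivity) (prod_nonneg fun i _ => by positivity)) (by
        intro h hh a' b' haa' hab' hbb'
        have hprod : ((List.ofFn h).prod : ℝ) = ∏ i, (h i : ℝ) := by
          rw [List.prod_ofFn]
          push_cast
          rfl
        have hprodle : ∏ i, (h i : ℝ) ≤ (H : ℝ) ^ k := by
          calc ∏ i, (h i : ℝ) ≤ ∏ _i : Fin k, (H : ℝ) :=
                prod_le_prod (fun i _ => by positivity) fun i _ => by exact_mod_cast (hh i).2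
            _ = (H : ℝ) ^ k := by rw [prod_const, card_univ, Fintype.card_fin]
        have hHk : lm * (H : ℝ) ^ k ≤ 1 / 2 := by
          calc lm * (H : ℝ) ^ k ≤ lm * y ^ k := by gcongr
            _ = 1 / 2 := by rw [hyk, mul_comm, hxlm]
        have h1 := vdc_step hCK hDL k (List.ofFn h) (List.length_ofFn) (by
            intro j hj
            rw [List.mem_ofFn] at hj
            obtain ⟨i, rfl⟩ := hj
            exact (hh i).1) hβ0 hβ1 hu hM a' b' (ha.trans (by exact_mod_cast haa')) hab'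
          (le_trans (by exact_mod_cast hbb') hb) (by
            rw [List.sum_ofFn]
            push_cast
            calc ∑ i, (h i : ℝ) ≤ ∑ _i : Fin k, (H : ℝ) :=
                  sum_le_sum fun i _ => by exact_mod_cast (hh i).2
              _ = k * H := by rw [sum_const, card_univ, Fintype.card_fin, nsmul_eq_mul]
              _ ≤ k * M := by gcongr) (by
            rw [hprod]
            calc u / (2 * Real.pi) * ((k ! : ℝ) * (∏ i, (h i : ℝ)) / M ^ (k + 1)) =
                  lm * ∏ i, (h i : ℝ) := by rw [hlm]; ring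
              _ ≤ lm * (H : ℝ) ^ k := by gcongr
              _ ≤ 1 / 2 := hHk)
        refine h1.trans (le_of_eq ?_)
        rw [hprod, prod_inv_distrib]
        have hpp : 0 < ∏ i, (h i : ℝ) := prod_pos fun i _ => by
          have := (hh i).1
          exact_mod_cast this
        rw [hlm]
        field_simp)
    rw [← mul_sum] at hstep
    have hharm := vdc_harm k H hH1 hHM
    have hlog := vdc_log k (by omega) hM
    simp only [hS]
    set S : ℝ := ‖∑ n ∈ Ioc a b, ee ((fun n : ℕ => u / (2 * Real.pi) * Real.log (n + β)) n)‖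
      with hSdef
    have hS0 : 0 ≤ S := norm_nonneg _
    -- estimates
    have hHinv : M ^ m / (H : ℝ) ≤ 2 * (k ! : ℝ) * (M ^ m * M ^ (-(1 / k) : ℝ)) := by
      have h1 : M ^ (1 / k : ℝ) ≤ 2 * (k ! : ℝ) * H := by
        have h2 : M ≤ (k ! : ℝ) * x := by
          rw [div_le_iff₀ (by positivity)] at hxlow
          linarith
        have h3 : M ^ (1 / k : ℝ) ≤ ((k ! : ℝ) * x) ^ (1 / k : ℝ) :=
          Real.rpow_le_rpow hM0.le h2 (by positivity)
        rw [Real.mul_rpow (by positivity) hx0.le] at h3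
        have h4 : (k ! : ℝ) ^ (1 / k : ℝ) ≤ (k ! : ℝ) := by
          calc (k ! : ℝ) ^ (1 / k : ℝ) ≤ (k ! : ℝ) ^ (1 : ℝ) := by
                refine Real.rpow_le_rpow_of_exponent_le (by linarith) ?_
                rw [div_le_one hk0]
                linarith
            _ = _ := Real.rpow_one _
        calc M ^ (1 / k : ℝ) ≤ (k ! : ℝ) ^ (1 / k : ℝ) * y := h3
          _ ≤ (k ! : ℝ) * y := by gcongr
          _ ≤ 2 * (k ! : ℝ) * H := by nlinarith
      rw [Real.rpow_neg hM0.le, div_le_iff₀ hH0]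
      have h5 : 0 < M ^ (1 / k : ℝ) := Real.rpow_pos_of_pos hM0 _
      calc M ^ m = M ^ m * (M ^ (1 / k : ℝ))⁻¹ * M ^ (1 / k : ℝ) := by
            field_simp
        _ ≤ M ^ m * (M ^ (1 / k : ℝ))⁻¹ * (2 * (k ! : ℝ) * H) := by gcongr
        _ = _ := by ring
    have hHlm : 1 / ((H : ℝ) ^ k * lm) ≤ 2 ^ (k + 1) := by
      rw [div_le_iff₀ (by positivity)]
      have h1 : (y / 2) ^ k ≤ (H : ℝ) ^ k := by gcongr
      have h2 : (y / 2) ^ k * lm = 1 / 2 ^ (k + 1) := by
        rw [div_pow, hyk, div_mul_eq_mul_div, hxlm, pow_succ]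
        field_simp
      calc (1 : ℝ) = 2 ^ (k + 1) * (1 / 2 ^ (k + 1)) := by field_simp
        _ = 2 ^ (k + 1) * ((y / 2) ^ k * lm) := by rw [h2]
        _ ≤ 2 ^ (k + 1) * ((H : ℝ) ^ k * lm) := by gcongr
    have hMm : M ^ (m - 1) * M ^ (1 / 2 : ℝ) ≤ M ^ m * M ^ (-(1 / k) : ℝ) := by
      have h1 : M ^ m = M ^ (m - 1) * M := by
        rw [← pow_succ, Nat.sub_add_cancel hm1]
      rw [h1, mul_assoc]
      refine mul_le_mul_of_nonneg_left ?_ (by positivity)
      calc M ^ (1 / 2 : ℝ) ≤ M ^ (1 + -(1 / k) : ℝ) := by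
            refine Real.rpow_le_rpow_of_exponent_le hM ?_
            have : (1 : ℝ) / k ≤ 1 / 3 := one_div_le_one_div_of_le (by norm_num) hkR
            linarith
        _ = M * M ^ (-(1 / k) : ℝ) := by rw [Real.rpow_add hM0, Real.rpow_one]
    have hsecond : M ^ (m - 1) / (H : ℝ) ^ k * (CK * ((k : ℝ) + 4) ^ (k + 1) / lm *
        ∑ h ∈ Fintype.piFinset (fun _ : Fin k => Icc 1 H), ∏ i, ((h i : ℝ))⁻¹) ≤
        2 ^ (k + 1) * (CK * ((k : ℝ) + 4) ^ (k + 1)) * (1 + 2 * k) ^ k *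
          (M ^ m * M ^ (-(1 / k) : ℝ)) := by
      calc M ^ (m - 1) / (H : ℝ) ^ k * (CK * ((k : ℝ) + 4) ^ (k + 1) / lm *
            ∑ h ∈ Fintype.piFinset (fun _ : Fin k => Icc 1 H), ∏ i, ((h i : ℝ))⁻¹)
          ≤ M ^ (m - 1) / (H : ℝ) ^ k * (CK * ((k : ℝ) + 4) ^ (k + 1) / lm *
            ((1 + 2 * k) ^ k * M ^ (1 / 2 : ℝ))) := by
              gcongr
              exact hharm.trans hlog
        _ = 1 / ((H : ℝ) ^ k * lm) * (CK * ((k : ℝ) + 4) ^ (k + 1)) * (1 + 2 * k) ^ k *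
            (M ^ (m - 1) * M ^ (1 / 2 : ℝ)) := by
              field_simp
        _ ≤ 2 ^ (k + 1) * (CK * ((k : ℝ) + 4) ^ (k + 1)) * (1 + 2 * k) ^ k *
            (M ^ m * M ^ (-(1 / k) : ℝ)) := by gcongr
    have hSm : S ^ m ≤ K * (M ^ m * M ^ (-(1 / k) : ℝ)) := by
      refine hstep.trans ?_
      rw [hKdef]
      have h1 := add_le_add hHinv hsecond
      calc CW * (M ^ m / (H : ℝ) + M ^ (m - 1) / (H : ℝ) ^ k * (CK * ((k : ℝ) + 4) ^ (k + 1) /
            lm * ∑ h ∈ Fintype.piFinset (fun _ : Fin k => Icc 1 H), ∏ i, ((h i : ℝ))⁻¹))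
          ≤ CW * (2 * (k ! : ℝ) * (M ^ m * M ^ (-(1 / k) : ℝ)) +
            2 ^ (k + 1) * (CK * ((k : ℝ) + 4) ^ (k + 1)) * (1 + 2 * k) ^ k *
              (M ^ m * M ^ (-(1 / k) : ℝ))) := mul_le_mul_of_nonneg_left h1 hCW0.le
        _ = _ := by ring
    have hfinal : S ≤ (K + 1) * M ^ (1 - c) := by
      have h1 : ((K + 1) * M ^ (1 - c)) ^ m = (K + 1) ^ m * (M ^ m * M ^ (-(1 / k) : ℝ)) := by
        rw [mul_pow]
        congr 1
        rw [← Real.rpow_natCast (M ^ (1 - c)) m, ← Real.rpow_mul hM0.le, ← Real.rpow_natCast M m,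
          ← Real.rpow_add hM0]
        congr 1
        rw [hc]
        have hmne : (m : ℝ) ≠ 0 := by positivity
        field_simp
        ring
      refine le_of_pow_le_pow_left₀ (by omega : m ≠ 0) (by positivity) ?_
      rw [h1]
      refine hSm.trans (mul_le_mul_of_nonneg_right ?_ (by positivity))
      calc K ≤ K + 1 := by linarith
        _ = (K + 1) ^ 1 := (pow_one _).symm
        _ ≤ (K + 1) ^ m := pow_le_pow_right₀ (by linarith) hm1
    refine hfinal.trans (mul_le_mul_of_nonneg_right ?_ hMc0.le)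
    have h1 : 0 ≤ 8 * Real.pi * CK := by positivity
    have h2 : (0 : ℝ) ≤ k ! := by positivity
    linarith

theorem st_VDC (hK : ST_KL) (hW : ST_WV) (hDL : ST_DL) : ST_VDC := by
  intro A _
  obtain ⟨c, hc, C, hC, h⟩ := vdc_pos hK hW hDL A
  refine ⟨c, hc, C, hC, ?_⟩
  intro M β u a b hM hβ0 hβ1 hu1 hu2 ha hab hb
  rcases le_total 0 u with hu | hu
  · rw [abs_of_nonneg hu] at hu1 hu2
    exact h M β u a b hM hβ0 hβ1 hu1 hu2 ha hab hb
  · rw [abs_of_nonpos hu] at hu1 hu2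
    have h1 := h M β (-u) a b hM hβ0 hβ1 hu1 hu2 ha hab hb
    have h2 : ‖∑ m ∈ Ioc a b, xiu (m + β) u‖ = ‖∑ m ∈ Ioc a b, xiu (m + β) (-u)‖ := by
      have h3 : ∀ m : ℕ, xiu (m + β) (-u) = ee (-(u / (2 * Real.pi) * Real.log (m + β))) := by
        intro m
        rw [vdc_xiu]
        congr 1
        ring
      simp only [h3]
      rw [vdc_norm_neg (Ioc a b) (fun m => u / (2 * Real.pi) * Real.log (m + β))]
      simp only [vdc_xiu]
    rw [h2]
    exact h1

end Pool.Agent.Helper40.MR
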